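import Pool.Agent.H59.EX.Defs
import Pool.Agent.H89.Perc.Prob

/-!
# Periodic configurations: confinement of two clusters by seals

`Γ` is a group of periods.  `F₁`, `F₂` are clusters in a domain `D`, `X₁`, `X₂` corridors attached to
them, `M₁`, `M₂` the mouths through which they leave `D`.
-/

set_option autoImplicit false

open MeasureTheory ProbabilityTheory unitInterval

namespace Pool.Agent.H47.EX

open Pool.Agent.H89.Perc Pool.Agent.H59.EX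

/-- All translates of `S` by periods. -/
def pset (Γ : AddSubgroup (ℤ × ℤ)) (S : Set Vert) : Set Vert := {v | ∃ z ∈ Γ, v + z ∈ S}

/-- All translates of the edge set `t` by periods. -/
def pedge (Γ : AddSubgroup (ℤ × ℤ)) (t : Set Edge) : Set Edge := {e | ∃ z ∈ Γ, shiftE z e ∈ t}

variable {Γ : AddSubgroup (ℤ × ℤ)}

theorem src_shiftE (z : Vert) (e : Edge) : src (shiftE z e) = src e + z := rfl

theorem tgt_shiftE (z : Vert) (e : Edge) : tgt (shiftE z e) = tgt e + z := by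
  obtain ⟨a, b, t⟩ := e
  cases t
  · simp only [tgt, shiftE, Bool.false_eq_true, if_false]
    ext <;> simp <;> ring
  · simp only [tgt, shiftE, if_true]
    ext <;> simp
    ring

theorem joins_shiftE {e : Edge} {a b : Vert} (z : Vert) (h : Joins e a b) :
    Joins (shiftE z e) (a + z) (b + z) := joins_shift z h

theorem shiftE_shiftE (z w : Vert) (e : Edge) : shiftE z (shiftE w e) = shiftE (w + z) e := by
  obtain ⟨a, b, t⟩ := e
  simp only [shiftE, Prod.fst_add, Prod.snd_add, add_assoc]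

theorem shiftE_zero (e : Edge) : shiftE 0 e = e := by
  obtain ⟨a, b, t⟩ := e
  simp [shiftE]

theorem pset_sub (S : Set Vert) : S ⊆ pset Γ S := fun v hv => ⟨0, Γ.zero_mem, by simpa using hv⟩

theorem pset_mono {S T : Set Vert} (h : S ⊆ T) : pset Γ S ⊆ pset Γ T :=
  fun _ ⟨z, hz, hv⟩ => ⟨z, hz, h hv⟩

theorem pset_add {S : Set Vert} {v z : Vert} (hz : z ∈ Γ) : v + z ∈ pset Γ S ↔ v ∈ pset Γ S := by
  constructor
  · rintro ⟨w, hw, h⟩
    exact ⟨z + w, Γ.add_mem hz hw, by rwa [← add_assoc]⟩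
  · rintro ⟨w, hw, h⟩
    refine ⟨-z + w, Γ.add_mem (Γ.neg_mem hz) hw, ?_⟩
    rwa [add_assoc, add_neg_cancel_left]

theorem pedge_add {t : Set Edge} {e : Edge} {z : Vert} (hz : z ∈ Γ) :
    shiftE z e ∈ pedge Γ t ↔ e ∈ pedge Γ t := by
  constructor
  · rintro ⟨w, hw, h⟩
    rw [shiftE_shiftE] at h
    exact ⟨z + w, Γ.add_mem hz hw, h⟩
  · rintro ⟨w, hw, h⟩
    refine ⟨-z + w, Γ.add_mem (Γ.neg_mem hz) hw, ?_⟩
    rwa [shiftE_shiftE, add_neg_cancel_left]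

/-- Adjacent vertices. -/
theorem ball_one_of_joins {e : Edge} {a b : Vert} (h : Joins e a b) : b ∈ ball a 1 := by
  obtain ⟨x, y, t⟩ := e
  rcases h with ⟨h1, h2⟩ | ⟨h1, h2⟩ <;> subst h1 h2 <;> cases t <;>
    simp [mem_ball, src, tgt] <;> omega

theorem ball_comm {a b : Vert} {r : ℕ} : b ∈ ball a r ↔ a ∈ ball b r := by
  rw [mem_ball, mem_ball]
  omega

theorem ball_mono {a b : Vert} {r s : ℕ} (h : r ≤ s) (hb : b ∈ ball a r) : b ∈ ball a s := by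
  rw [mem_ball] at hb ⊢
  omega

theorem ball_add {a b z : Vert} {r : ℕ} : b + z ∈ ball (a + z) r ↔ b ∈ ball a r := by
  rw [mem_ball, mem_ball, Prod.fst_add, Prod.snd_add, Prod.fst_add, Prod.snd_add]
  omega

/-- The data of the two clusters. -/
structure TwoData (Γ : AddSubgroup (ℤ × ℤ)) (D F₁ F₂ X₁ X₂ M₁ M₂ C : Set Vert) (η : Config)
    (ρ : ℕ) : Prop where
  per : ∀ z ∈ Γ, ∀ e, η (shiftE z e) = η e
  s1 : F₁ ⊆ D
  s2 : F₂ ⊆ D
  disj : ∀ a ∈ F₁, a ∉ F₂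
  cl1 : ∀ a ∈ F₁, ∀ b, Step η D a b → b ∈ F₁
  cl2 : ∀ a ∈ F₂, ∀ b, Step η D a b → b ∈ F₂
  x1 : ∀ a ∈ X₁, a ∈ D → a ∈ F₁
  x2 : ∀ a ∈ X₂, a ∈ D → a ∈ F₂
  m1 : ∀ a ∈ F₁, a ∉ X₁ → ∀ b, b ∉ D → b ∈ ball a 1 → a ∈ M₁
  m2 : ∀ a ∈ F₂, a ∉ X₂ → ∀ b, b ∉ D → b ∈ ball a 1 → a ∈ M₂
  far : ∀ a ∈ M₁ ∪ X₁, ∀ b, ∀ z ∈ Γ, b + z ∈ M₂ ∪ X₂ → b ∉ ball a (4 * ρ)
  one : ∀ a ∈ D ∪ (X₁ ∪ X₂), ∀ b, ∀ z ∈ Γ, b + z ∈ D → b ∈ ball a 1 → z = 0
  cC : C ⊆ pset Γ X₁ ∪ pset Γ X₂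

variable {D F₁ F₂ X₁ X₂ M₁ M₂ C : Set Vert} {η : Config} {ρ : ℕ}

/-- Exchange the roles of the two clusters. -/
theorem TwoData.symm (h : TwoData Γ D F₁ F₂ X₁ X₂ M₁ M₂ C η ρ) :
    TwoData Γ D F₂ F₁ X₂ X₁ M₂ M₁ C η ρ where
  per := h.per
  s1 := h.s2
  s2 := h.s1
  disj := fun a h2 h1 => h.disj a h1 h2
  cl1 := h.cl2
  cl2 := h.cl1
  x1 := h.x2
  x2 := h.x1
  m1 := h.m2
  m2 := h.m1
  far := by
    intro a ha b z hz hb hab
    have e : a = a + z + -z := by abel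
    refine h.far (b + z) hb (a + z) (-z) (Γ.neg_mem hz) ?_ ?_
    · rwa [← e]
    · rw [ball_add, ball_comm]
      exact hab
  one := by
    intro a ha b z hz hb hab
    refine h.one a ?_ b z hz hb hab
    rcases ha with ha | ha | ha
    · exact Or.inl ha
    · exact Or.inr (Or.inr ha)
    · exact Or.inr (Or.inl ha)
  cC := by
    intro v hv
    exact (h.cC hv).symm

/-- The determined edges. -/
def tset (D F₁ F₂ C : Set Vert) : Set Edge := touch D (F₁ ∪ F₂) ∪ inE C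

theorem tset_symm : tset D F₁ F₂ C = tset D F₂ F₁ C := by
  unfold tset
  rw [Set.union_comm F₁ F₂]

theorem joins_inE {S : Set Vert} {e : Edge} {a b : Vert} (hj : Joins e a b) (he : e ∈ inE S) :
    a ∈ S ∧ b ∈ S := by
  rcases hj with ⟨h1, h2⟩ | ⟨h1, h2⟩
  · subst h1 h2
    exact he
  · subst h1 h2
    exact ⟨he.2, he.1⟩

theorem joins_touch {S T : Set Vert} {e : Edge} {a b : Vert} (hj : Joins e a b)
    (he : e ∈ touch S T) : a ∈ S ∧ b ∈ S ∧ (a ∈ T ∨ b ∈ T) := by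
  rcases hj with ⟨h1, h2⟩ | ⟨h1, h2⟩
  · subst h1 h2
    exact ⟨he.1.1, he.1.2, he.2⟩
  · subst h1 h2
    exact ⟨he.1.2, he.1.1, he.2.symm⟩

private theorem exit_core (h : TwoData Γ D F₁ F₂ X₁ X₂ M₁ M₂ C η ρ) (hρ : 1 ≤ ρ) {a b : Vert}
    {e : Edge} (hj : Joins e a b) (ho : η e = true) (ha : a ∈ F₁ ∪ X₁)
    (hb : b ∉ pset Γ (F₁ ∪ X₁)) :
    a ∈ M₁ ∪ X₁ ∧ b ∉ pset Γ (F₂ ∪ X₂) ∧ e ∉ pedge Γ (tset D F₁ F₂ C) := by
  have hab : b ∈ ball a 1 := ball_one_of_joins hj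
  have hab4 : b ∈ ball a (4 * ρ) := ball_mono (by omega) hab
  have hbF : b ∉ F₁ ∪ X₁ := fun h' => hb (pset_sub _ h')
  have kA : ¬ (a ∈ D ∧ b ∈ D) := by
    rintro ⟨haD, hbD⟩
    have haF : a ∈ F₁ := by
      rcases ha with ha | ha
      · exact ha
      · exact h.x1 a ha haD
    exact hbF (Or.inl (h.cl1 a haF b ⟨haD, hbD, e, hj, ho⟩))
  have kB : a ∈ M₁ ∪ X₁ := by
    by_cases hx : a ∈ X₁
    · exact Or.inr hx
    · rcases ha with ha | ha
      · exact Or.inl (h.m1 a ha hx b (fun hbD => kA ⟨h.s1 ha, hbD⟩) hab)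
      · exact absurd ha hx
  have kC : b ∉ pset Γ (F₂ ∪ X₂) := by
    rintro ⟨z, hz, hbz | hbz⟩
    · have hz0 : z = 0 := h.one a (by
        rcases ha with ha | ha
        · exact Or.inl (h.s1 ha)
        · exact Or.inr (Or.inl ha)) b z hz (h.s2 hbz) hab
      rw [hz0, add_zero] at hbz
      by_cases hx : b ∈ X₂
      · exact h.far a kB b 0 Γ.zero_mem (by rw [add_zero]; exact Or.inr hx) hab4
      · have hm := h.m2 b hbz hx a (fun haD => kA ⟨haD, h.s2 hbz⟩) (ball_comm.1 hab)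
        exact h.far a kB b 0 Γ.zero_mem (by rw [add_zero]; exact Or.inl hm) hab4
    · exact h.far a kB b z hz (Or.inr hbz) hab4
  refine ⟨kB, kC, ?_⟩
  rintro ⟨z, hz, ht | ht⟩
  · obtain ⟨h1, h2, -⟩ := joins_touch (joins_shiftE z hj) ht
    have hz0 : z = 0 := h.one a (by
        rcases ha with ha | ha
        · exact Or.inl (h.s1 ha)
        · exact Or.inr (Or.inl ha)) b z hz h2 hab
    rw [hz0, add_zero] at h1 h2
    exact kA ⟨h1, h2⟩
  · obtain ⟨-, h2⟩ := joins_inE (joins_shiftE z hj) ht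
    rcases h.cC h2 with h3 | h3
    · exact hb (pset_mono Set.subset_union_right ((pset_add hz).1 h3))
    · exact kC (pset_mono Set.subset_union_right ((pset_add hz).1 h3))

theorem TwoData.exit (h : TwoData Γ D F₁ F₂ X₁ X₂ M₁ M₂ C η ρ) (hρ : 1 ≤ ρ) {a b : Vert}
    {e : Edge} (hj : Joins e a b) (ho : η e = true) (ha : a ∈ pset Γ (F₁ ∪ X₁))
    (hb : b ∉ pset Γ (F₁ ∪ X₁)) :
    a ∈ pset Γ (M₁ ∪ X₁) ∧ b ∉ pset Γ (F₂ ∪ X₂) ∧ e ∉ pedge Γ (tset D F₁ F₂ C) := by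
  obtain ⟨z, hz, ha⟩ := ha
  obtain ⟨k1, k2, k3⟩ := exit_core h hρ (joins_shiftE z hj) (by rw [h.per z hz]; exact ho) ha
    (fun h' => hb ((pset_add hz).1 h'))
  exact ⟨⟨z, hz, k1⟩, fun h' => k2 ((pset_add hz).2 h'), fun h' => k3 ((pedge_add hz).2 h')⟩

theorem TwoData.sdisj (h : TwoData Γ D F₁ F₂ X₁ X₂ M₁ M₂ C η ρ) {a : Vert}
    (h1 : a ∈ pset Γ (F₁ ∪ X₁)) : a ∉ pset Γ (F₂ ∪ X₂) := by
  have core : ∀ a ∈ F₁ ∪ X₁, a ∉ pset Γ (F₂ ∪ X₂) := by
    rintro a ha ⟨z, hz, hb⟩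
    have haa : a ∈ ball a (4 * ρ) := self_mem_ball
    rcases hb with hb | hb
    · have hz0 : z = 0 := h.one a (by
        rcases ha with ha | ha
        · exact Or.inl (h.s1 ha)
        · exact Or.inr (Or.inl ha)) a z hz (h.s2 hb) self_mem_ball
      rw [hz0, add_zero] at hb
      rcases ha with ha | ha
      · exact h.disj a ha hb
      · exact h.disj a (h.x1 a ha (h.s2 hb)) hb
    · rcases ha with ha | ha
      · have hz0 : -z = 0 := h.one (a + z) (Or.inr (Or.inr hb)) (a + z) (-z) (Γ.neg_mem hz)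
          (by rw [add_neg_cancel_right]; exact h.s1 ha) self_mem_ball
        rw [neg_eq_zero.1 hz0, add_zero] at hb
        exact h.disj a ha (h.x2 a hb (h.s1 ha))
      · exact h.far a (Or.inr ha) a z hz (Or.inr hb) haa
  obtain ⟨z, hz, h1⟩ := h1
  intro h2
  exact core _ h1 ((pset_add hz).2 h2)

/-- Translates of paths in a periodic configuration. -/
theorem conn_closeS_add {t : Set Edge} (hper : ∀ z ∈ Γ, ∀ e, η (shiftE z e) = η e) {u v z : Vert}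
    (hz : z ∈ Γ) (h : Conn (closeS (pedge Γ t) η) Set.univ u v) :
    Conn (closeS (pedge Γ t) η) Set.univ (u + z) (v + z) := by
  refine h.map (fun w => w + z) (fun _ _ => trivial) ?_
  intro e a b hj ho
  refine ⟨shiftE z e, joins_shiftE z hj, ?_⟩
  simp only [closeS, Bool.and_eq_true, decide_eq_true_eq] at ho ⊢
  rw [hper z hz, pedge_add hz]
  exact ho

/-- **Two sealed clusters are disjoint.** -/
theorem TwoData.not_conn (h : TwoData Γ D F₁ F₂ X₁ X₂ M₁ M₂ C η ρ) (hρ : 1 ≤ ρ)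
    (hs : ∀ a ∈ M₁ ∪ X₁, ∀ v, Conn (closeS (pedge Γ (tset D F₁ F₂ C)) η) Set.univ a v →
      v ∈ ball a (4 * ρ)) {x y : Vert} (hx : x ∈ pset Γ (F₁ ∪ X₁)) (hy : y ∈ pset Γ (F₂ ∪ X₂)) :
    ¬ Conn η Set.univ x y := by
  intro hc
  set t := pedge Γ (tset D F₁ F₂ C) with ht
  have hs' : ∀ a ∈ pset Γ (M₁ ∪ X₁), ∀ v, Conn (closeS t η) Set.univ a v →
      v ∈ ball a (4 * ρ) := by
    rintro a ⟨z, hz, ha⟩ v hv
    have := hs _ ha _ (conn_closeS_add h.per hz hv)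
    rwa [ball_add] at this
  have key : y ∈ pset Γ (F₁ ∪ X₁) ∨ (y ∉ pset Γ (F₁ ∪ X₁) ∧ y ∉ pset Γ (F₂ ∪ X₂) ∧
      ∃ a ∈ pset Γ (M₁ ∪ X₁), Conn (closeS t η) Set.univ a y) := by
    refine hc.induction_right (P := fun y => y ∈ pset Γ (F₁ ∪ X₁) ∨
      (y ∉ pset Γ (F₁ ∪ X₁) ∧ y ∉ pset Γ (F₂ ∪ X₂) ∧
        ∃ a ∈ pset Γ (M₁ ∪ X₁), Conn (closeS t η) Set.univ a y)) (Or.inl hx) ?_
    rintro a b _ ⟨-, -, e, hj, ho⟩ ih
    have hopen : e ∉ t → (closeS t η) e = true := by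
      intro het
      simp only [closeS, Bool.and_eq_true, decide_eq_true_eq]
      exact ⟨ho, het⟩
    by_cases hbS : b ∈ pset Γ (F₁ ∪ X₁)
    · exact Or.inl hbS
    refine Or.inr ⟨hbS, ?_⟩
    rcases ih with haS | ⟨haS, haF, c, hc, hcc⟩
    · obtain ⟨k1, k2, k3⟩ := h.exit hρ hj ho haS hbS
      exact ⟨k2, a, k1, Step.conn ⟨trivial, trivial, e, hj, hopen k3⟩⟩
    · by_cases hbF : b ∈ pset Γ (F₂ ∪ X₂)
      · exfalso
        obtain ⟨k1, -, k3⟩ := h.symm.exit hρ hj.symm ho hbF haF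
        rw [tset_symm] at k3
        have hcb := hs' c hc b (hcc.tail ⟨trivial, trivial, e, hj, hopen k3⟩)
        obtain ⟨z, hz, hc'⟩ := hc
        obtain ⟨w, hw, hb'⟩ := k1
        refine h.far _ hc' (b + z) (-z + w) (Γ.add_mem (Γ.neg_mem hz) hw) ?_ ?_
        · rw [add_assoc, add_neg_cancel_left]
          exact hb'
        · rw [ball_add]
          exact hcb
      · refine ⟨hbF, c, hc, hcc.tail ⟨trivial, trivial, e, hj, hopen ?_⟩⟩
        rintro ⟨z, hz, ht' | ht'⟩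
        · obtain ⟨-, -, h3 | h3⟩ := joins_touch (joins_shiftE z hj) ht'
          · rcases h3 with h3 | h3
            · exact haS ⟨z, hz, Or.inl h3⟩
            · exact haF ⟨z, hz, Or.inl h3⟩
          · rcases h3 with h3 | h3
            · exact hbS ⟨z, hz, Or.inl h3⟩
            · exact hbF ⟨z, hz, Or.inl h3⟩
        · obtain ⟨h3, -⟩ := joins_inE (joins_shiftE z hj) ht'
          rcases h.cC h3 with h4 | h4
          · exact haS (pset_mono Set.subset_union_right ((pset_add hz).1 h4))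
          · exact haF (pset_mono Set.subset_union_right ((pset_add hz).1 h4))
  rcases key with h1 | ⟨-, h2, -⟩
  · exact h.sdisj h1 hy
  · exact h2 hy

end Pool.Agent.H47.EX
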