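import Pool.Agent.H47.EX.CylGeo
import Pool.Agent.H59.EX.Fact
import Pool.Agent.H89.Link.CylArm
import Pool.Agent.H89.Link.Fc2

/-!
# From the separated event to two winding clusters: deterministic part
-/

set_option autoImplicit false

open MeasureTheory ProbabilityTheory unitInterval

namespace Pool.Agent.H47.EX

open Pool.Agent.H89.Perc hiding per
open Pool.Agent.H59.EX
open Pool.Agent.H89.Link (per base per_eq strip Fc2 xx yy sh cylArm_conn_sh)

variable {n k K : ℕ} {ω η : Config} {e : Edge}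

/-! ### The crossing event -/

/-- Periodic extension of the configuration on the edges of `CC`. -/
noncomputable def ext (n k : ℕ) (η : Config) : Config := fun e => by
  classical exact decide (∃ e' ∈ inE (CC n k), base n e' = base n e ∧ η e' = true)

theorem ext_true : ext n k η e = true ↔
    ∃ e' ∈ inE (CC n k), base n e' = base n e ∧ η e' = true := by
  simp [ext]

theorem ext_le (h : ext n k (per n ω) e = true) : per n ω e = true := by
  obtain ⟨e', -, h1, h2⟩ := ext_true.1 h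
  rw [per_eq] at h2 ⊢
  rw [← h1]
  exact h2

theorem le_ext (hn : 1 ≤ n) (he : e ∈ inE (pset (gam n) (XX n k ∪ YY n k)))
    (h : per n ω e = true) : ext n k (per n ω) e = true := by
  obtain ⟨e', he', h1⟩ := exists_CC hn he
  refine ext_true.2 ⟨e', he', h1, ?_⟩
  rw [per_eq] at h ⊢
  rw [h1]
  exact h

/-- The crossings of the corridors (in the extended configuration). -/
def Np (n k : ℕ) : Set Config :=
  {η | HCross (ext n k η) (28 * k) (n + 67 * k) (-(3 * k)) (3 * k) ∧
    VCross (ext n k η) (n + 61 * k) (n + 67 * k) (-(n + 3 * k)) (3 * k) ∧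
    HCross (ext n k η) (-(n + 67 * k)) (-(28 * k)) (-(3 * k)) (3 * k) ∧
    VCross (ext n k η) (-(n + 67 * k)) (-(n + 61 * k)) (-(3 * k)) (n + 3 * k)}

theorem hcross_mono {ω ω' : Config} {a b c d : ℤ} (h : ∀ e, ω e = true → ω' e = true)
    (hc : HCross ω a b c d) : HCross ω' a b c d := by
  obtain ⟨u, v, h1, h2, h3⟩ := hc
  exact ⟨u, v, h1, h2, h3.mono le_rfl h⟩

theorem vcross_mono {ω ω' : Config} {a b c d : ℤ} (h : ∀ e, ω e = true → ω' e = true)
    (hc : VCross ω a b c d) : VCross ω' a b c d := by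
  obtain ⟨u, v, h1, h2, h3⟩ := hc
  exact ⟨u, v, h1, h2, h3.mono le_rfl h⟩

theorem incr_Np (n k : ℕ) : Incr (Np n k) := by
  rintro η η' h ⟨h1, h2, h3, h4⟩
  have key : ∀ e, ext n k η e = true → ext n k η' e = true := by
    intro e he
    obtain ⟨e', he', h5, h6⟩ := ext_true.1 he
    exact ext_true.2 ⟨e', he', h5, h _ h6⟩
  exact ⟨hcross_mono key h1, vcross_mono key h2, hcross_mono key h3, vcross_mono key h4⟩

theorem locS_Np (n k : ℕ) : LocS (inE (CC n k)) (Np n k) := by
  rintro η η' h ⟨h1, h2, h3, h4⟩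
  have key : ∀ e, ext n k η e = true → ext n k η' e = true := by
    intro e he
    obtain ⟨e', he', h5, h6⟩ := ext_true.1 he
    refine ext_true.2 ⟨e', he', h5, ?_⟩
    rw [← h e' he']
    exact h6
  exact ⟨hcross_mono key h1, vcross_mono key h2, hcross_mono key h3, vcross_mono key h4⟩

/-- Crossings of the periodic configuration inside the corridors. -/
def Np' (n k : ℕ) : Set Config :=
  {η | HCross η (28 * k) (n + 67 * k) (-(3 * k)) (3 * k)} ∩
    ({η | VCross η (n + 61 * k) (n + 67 * k) (-(n + 3 * k)) (3 * k)} ∩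
      ({η | HCross η (-(n + 67 * k)) (-(28 * k)) (-(3 * k)) (3 * k)} ∩
        {η | VCross η (-(n + 67 * k)) (-(n + 61 * k)) (-(3 * k)) (n + 3 * k)}))

theorem conn_ext (hn : 1 ≤ n) {S : Set Vert} (hS : S ⊆ XX n k ∪ YY n k) {u v : Vert}
    (h : Conn (per n ω) S u v) : Conn (ext n k (per n ω)) S u v := by
  refine h.congr (fun e h1 h2 => ?_)
  have he : e ∈ inE (pset (gam n) (XX n k ∪ YY n k)) :=
    ⟨pset_sub _ (hS h1), pset_sub _ (hS h2)⟩
  by_cases ho : per n ω e = true
  · rw [ho, le_ext hn he ho]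
  · rw [Bool.not_eq_true] at ho
    rw [ho]
    by_contra h3
    have := ext_le (Bool.not_eq_false _ |>.mp (Ne.symm h3))
    rw [ho] at this
    exact Bool.false_ne_true this

theorem Np_of (hn : 1 ≤ n) (h : per n ω ∈ Np' n k) : per n ω ∈ Np n k := by
  obtain ⟨⟨u1, v1, a1, b1, c1⟩, ⟨u2, v2, a2, b2, c2⟩, ⟨u3, v3, a3, b3, c3⟩,
    ⟨u4, v4, a4, b4, c4⟩⟩ := h
  refine ⟨⟨u1, v1, a1, b1, conn_ext hn ?_ c1⟩, ⟨u2, v2, a2, b2, conn_ext hn ?_ c2⟩,
    ⟨u3, v3, a3, b3, conn_ext hn ?_ c3⟩, ⟨u4, v4, a4, b4, conn_ext hn ?_ c4⟩⟩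
  · exact fun v hv => Or.inl (Or.inl hv)
  · exact fun v hv => Or.inl (Or.inr hv)
  · exact fun v hv => Or.inr (Or.inl hv)
  · exact fun v hv => Or.inr (Or.inr hv)

theorem Np'_of (h : per n ω ∈ Np n k) : per n ω ∈ Np' n k := by
  obtain ⟨h1, h2, h3, h4⟩ := h
  exact ⟨hcross_mono (fun _ => ext_le) h1, vcross_mono (fun _ => ext_le) h2,
    hcross_mono (fun _ => ext_le) h3, vcross_mono (fun _ => ext_le) h4⟩

/-! ### Clusters -/

theorem rect_conn {A B C D : ℤ} {a b : Vert} (ha : a ∈ rect A B C D) (hb : b ∈ rect A B C D) :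
    Conn allOpen (rect A B C D) a b := by
  obtain ⟨a1, a2⟩ := a
  obtain ⟨b1, b2⟩ := b
  simp only [rect, Set.mem_ofPred_eq] at ha hb
  have h1 : Conn allOpen (rect A B C D) (a1, a2) (b1, a2) := by
    rcases le_total a1 b1 with h | h
    · refine ArmBoxLower.line_h' _ _ _ _ h (fun t h3 h4 => ?_)
      simp only [rect, Set.mem_ofPred_eq]
      omega
    · refine (ArmBoxLower.line_h' _ _ _ _ h (fun t h3 h4 => ?_)).symm
      simp only [rect, Set.mem_ofPred_eq]
      omega
  have h2 : Conn allOpen (rect A B C D) (b1, a2) (b1, b2) := by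
    rcases le_total a2 b2 with h | h
    · refine ArmBoxLower.line_v' _ _ _ _ h (fun t h3 h4 => ?_)
      simp only [rect, Set.mem_ofPred_eq]
      omega
    · refine (ArmBoxLower.line_v' _ _ _ _ h (fun t h3 h4 => ?_)).symm
      simp only [rect, Set.mem_ofPred_eq]
      omega
  exact h1.trans h2

theorem TE_dom : T .E k ⊆ dom .E .W k := fun _ h => Or.inr (Or.inl h)

theorem TW_dom : T .W k ⊆ dom .E .W k := fun _ h => Or.inr (Or.inr h)

theorem TE_FX (hS : η ∈ Sep srcD .E .W k) : T .E k ⊆ FX srcD .E .W k η := by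
  obtain ⟨⟨u, v, -, -, h1, h2⟩, -⟩ := hS
  intro w hw
  rw [FX, mem_clus_single]
  have h3 : Conn allOpen (T .E k) u w := rect_conn h1.mem_left hw
  have h4 : Conn (fillV (T .E k ∪ T .W k) (srcD.cut η)) (dom .E .W k) u w :=
    conn_fillV (by
      rintro x (hx | hx)
      · exact TE_dom hx
      · exact TW_dom hx) (h3.mono_set Set.subset_union_left)
  exact (h2.mono le_rfl fun e he => fillV_true.2 (Or.inl he)).trans h4

theorem TW_FY (hS : η ∈ Sep srcD .E .W k) : T .W k ⊆ FY srcD .E .W k η := by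
  obtain ⟨-, ⟨u, v, -, -, h1, h2⟩, -⟩ := hS
  intro w hw
  rw [FY, mem_clus_single]
  have h3 : Conn allOpen (T .W k) u w := rect_conn h1.mem_left hw
  have h4 : Conn (fillV (T .E k ∪ T .W k) (srcD.cut η)) (dom .E .W k) u w :=
    conn_fillV (by
      rintro x (hx | hx)
      · exact TE_dom hx
      · exact TW_dom hx) (h3.mono_set Set.subset_union_right)
  exact (h2.mono le_rfl fun e he => fillV_true.2 (Or.inl he)).trans h4

theorem F_disj (hS : η ∈ Sep srcD .E .W k) {a : Vert} (h1 : a ∈ FX srcD .E .W k η)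
    (h2 : a ∈ FY srcD .E .W k η) : False := by
  rw [FX, mem_clus_single] at h1
  rw [FY, mem_clus_single] at h2
  exact hS.2.2.1 (h1.trans h2.symm)

theorem sphere_of {r : ℕ} {a b : Vert} (ha : a ∈ ball 0 r) (hb : b ∉ ball 0 r)
    (hab : b ∈ ball a 1) : a ∈ sphere 0 r := by
  refine ⟨ha, ?_⟩
  rw [mem_ball] at ha hb hab
  simp only [Prod.fst_zero, Prod.snd_zero, zero_sub, zero_add] at *
  push_cast at hab
  omega

theorem twoData (hk : 1 ≤ k) (hn : 256 * k ≤ n) (hS : per n ω ∈ Sep srcD .E .W k) :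
    TwoData (gam n) (dom .E .W k) (FX srcD .E .W k (per n ω)) (FY srcD .E .W k (per n ω))
      (XX n k) (YY n k) (Mouth .E k) (Mouth .W k) (CC n k) (per n ω) k where
  per := per_gam n ω
  s1 := clus_sub
  s2 := clus_sub
  disj := fun a h1 h2 => F_disj hS h1 h2
  cl1 := by
    intro a ha b hb
    refine clus_step ha (hb.mono le_rfl fun e he => fillV_true.2 (Or.inl ?_))
    rw [cut_srcD]
    exact he
  cl2 := by
    intro a ha b hb
    refine clus_step ha (hb.mono le_rfl fun e he => fillV_true.2 (Or.inl ?_))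
    rw [cut_srcD]
    exact he
  x1 := fun a ha hd => TE_FX hS (XX_dom hk hn ha hd)
  x2 := fun a ha hd => TW_FY hS (YY_dom hk hn ha hd)
  m1 := by
    intro a ha hx b hb hab
    have hd : a ∈ dom .E .W k := clus_sub ha
    have hbb : b ∉ ball 0 (32 * k) := fun h => hb (Or.inl h)
    rcases hd with hd | hd | hd
    · refine hS.2.2.2.1 a (sphere_of hd hbb hab) ?_
      rw [FX, mem_clus_single] at ha
      exact ha
    · exact absurd (TE_XX hk hn hd) hx
    · exact (F_disj hS ha (TW_FY hS hd)).elim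
  m2 := by
    intro a ha hx b hb hab
    have hd : a ∈ dom .E .W k := clus_sub ha
    have hbb : b ∉ ball 0 (32 * k) := fun h => hb (Or.inl h)
    rcases hd with hd | hd | hd
    · refine hS.2.2.2.2 a (sphere_of hd hbb hab) ?_
      rw [FY, mem_clus_single] at ha
      exact ha
    · exact (F_disj hS (TE_FX hS hd) ha).elim
    · exact absurd (TW_YY hk hn hd) hx
  far := fun a ha b z hz hb => far_XY hk hn ha hz hb
  one := fun a ha b z hz hb hab => one_sheet hk hn ha hz hb hab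
  cC := CC_sub

/-! ### Winding -/

theorem rect_strip {a b c d : ℤ} {H : ℕ} (h1 : -(H : ℤ) < a + c) (h2 : b + d < H) :
    rect a b c d ⊆ strip H := by
  intro v hv
  simp only [rect, Set.mem_ofPred_eq] at hv
  simp only [strip, Set.mem_ofPred_eq]
  omega

theorem dom_strip (hk : 1 ≤ k) (hn : 256 * k ≤ n) : dom .E .W k ⊆ strip (8 * n) := by
  intro v hv
  rw [mem_dom] at hv
  simp only [strip, Set.mem_ofPred_eq]
  push_cast
  omega

theorem strip_sh {H : ℕ} (j : ℤ) : ∀ v ∈ strip H, sh n j v ∈ strip H := by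
  intro v hv
  simp only [strip, Set.mem_ofPred_eq, sh] at hv ⊢
  omega

theorem wind_x (hk : 1 ≤ k) (hn : 256 * k ≤ n) (hS : per n ω ∈ Sep srcD .E .W k)
    (hN : per n ω ∈ Np' n k) : Conn (per n ω) (strip (8 * n)) xx (n, -n) := by
  obtain ⟨⟨u1, v1, p1, q1, c1⟩, ⟨u2, v2, p2, q2, c2⟩, -⟩ := hN
  obtain ⟨⟨u, v, p, q, h1, h2⟩, -⟩ := hS
  rw [cut_srcD] at h1 h2
  have hk' : (1 : ℤ) ≤ k := by exact_mod_cast hk
  have hn' : 256 * (k : ℤ) ≤ n := by exact_mod_cast hn
  have h1' : Conn (per n ω) (rect (28 * k) (36 * k) (-(3 * k)) (3 * k)) u v := h1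
  have c1' := cylArm_conn_sh n ω 1
    (S' := rect (n + 28 * k) (2 * n + 67 * k) (-(n + 3 * k)) (-n + 3 * k))
    (fun w hw => by
      simp only [rect, Set.mem_ofPred_eq, sh] at hw ⊢
      omega) c1
  have p1' : (sh n 1 u1).1 = n + 28 * k := by
    simp only [sh]
    omega
  have q1' : (sh n 1 v1).1 = 2 * n + 67 * k := by
    simp only [sh]
    omega
  obtain ⟨z1, a1, b1⟩ := Pool.Agent.H85.Strict.hv_meet c1 (by omega) (by omega) h1' (by omega)
    (by omega) (by omega) (by omega)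
  obtain ⟨z2, a2, b2⟩ := Pool.Agent.H85.Strict.hv_meet c1 (by omega) (by omega) c2 (by omega)
    (by omega) (by omega) (by omega)
  obtain ⟨z3, a3, b3⟩ := Pool.Agent.H85.Strict.hv_meet c1' (by omega) (by omega) c2 (by omega)
    (by omega) (by omega) (by omega)
  have s1 : rect (28 * k) (n + 67 * k) (-(3 * k)) (3 * k) ⊆ strip (8 * n) :=
    rect_strip (by push_cast; omega) (by push_cast; omega)
  have s2 : rect (n + 61 * k) (n + 67 * k) (-(n + 3 * k)) (3 * k) ⊆ strip (8 * n) :=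
    rect_strip (by push_cast; omega) (by push_cast; omega)
  have s3 : rect (n + 28 * k) (2 * n + 67 * k) (-(n + 3 * k)) (-n + 3 * k) ⊆ strip (8 * n) :=
    rect_strip (by push_cast; omega) (by push_cast; omega)
  have s4 : rect (28 * k) (36 * k) (-(3 * k)) (3 * k) ⊆ strip (8 * n) :=
    rect_strip (by push_cast; omega) (by push_cast; omega)
  have k1 : Conn (per n ω) (strip (8 * n)) xx u1 :=
    ((h2.mono_set (dom_strip hk hn)).trans (b1.mono_set s4)).trans (a1.mono_set s1).symm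
  have k2 : Conn (per n ω) (strip (8 * n)) u1 (sh n 1 u1) :=
    (((a2.mono_set s1).trans (b2.mono_set s2).symm).trans (b3.mono_set s2)).trans
      (a3.mono_set s3).symm
  have k3 := cylArm_conn_sh n ω 1 (strip_sh 1) k1
  have e : sh n 1 xx = ((n : ℤ), -(n : ℤ)) := by
    simp [sh, xx]
  rw [← e]
  exact (k1.trans k2).trans k3.symm

theorem wind_y (hk : 1 ≤ k) (hn : 256 * k ≤ n) (hS : per n ω ∈ Sep srcD .E .W k)
    (hN : per n ω ∈ Np' n k) : Conn (per n ω) (strip (8 * n)) yy (n + 1, -n - 1) := by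
  obtain ⟨-, -, ⟨u1, v1, p1, q1, c1⟩, ⟨u2, v2, p2, q2, c2⟩⟩ := hN
  obtain ⟨-, ⟨u, v, p, q, h1, h2⟩, -⟩ := hS
  rw [cut_srcD] at h1 h2
  have hk' : (1 : ℤ) ≤ k := by exact_mod_cast hk
  have hn' : 256 * (k : ℤ) ≤ n := by exact_mod_cast hn
  have h1' : Conn (per n ω) (rect (-(36 * k)) (-(28 * k)) (-(3 * k)) (3 * k)) u v := h1
  have c1' := cylArm_conn_sh n ω (-1)
    (S' := rect (-(2 * n + 67 * k)) (-(n + 28 * k)) (n - 3 * k) (n + 3 * k))
    (fun w hw => by
      simp only [rect, Set.mem_ofPred_eq, sh] at hw ⊢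
      omega) c1
  have p1' : (sh n (-1) u1).1 = -(2 * n + 67 * k) := by
    simp only [sh]
    omega
  have q1' : (sh n (-1) v1).1 = -(n + 28 * k) := by
    simp only [sh]
    omega
  obtain ⟨z1, a1, b1⟩ := Pool.Agent.H85.Strict.hv_meet c1 (by omega) (by omega) h1' (by omega)
    (by omega) (by omega) (by omega)
  obtain ⟨z2, a2, b2⟩ := Pool.Agent.H85.Strict.hv_meet c1 (by omega) (by omega) c2 (by omega)
    (by omega) (by omega) (by omega)
  obtain ⟨z3, a3, b3⟩ := Pool.Agent.H85.Strict.hv_meet c1' (by omega) (by omega) c2 (by omega)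
    (by omega) (by omega) (by omega)
  have s1 : rect (-(n + 67 * k)) (-(28 * k)) (-(3 * k)) (3 * k) ⊆ strip (8 * n) :=
    rect_strip (by push_cast; omega) (by push_cast; omega)
  have s2 : rect (-(n + 67 * k)) (-(n + 61 * k)) (-(3 * k)) (n + 3 * k) ⊆ strip (8 * n) :=
    rect_strip (by push_cast; omega) (by push_cast; omega)
  have s3 : rect (-(2 * n + 67 * k)) (-(n + 28 * k)) (n - 3 * k) (n + 3 * k) ⊆ strip (8 * n) :=
    rect_strip (by push_cast; omega) (by push_cast; omega)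
  have s4 : rect (-(36 * k)) (-(28 * k)) (-(3 * k)) (3 * k) ⊆ strip (8 * n) :=
    rect_strip (by push_cast; omega) (by push_cast; omega)
  have k1 : Conn (per n ω) (strip (8 * n)) yy u1 :=
    ((h2.mono_set (dom_strip hk hn)).trans (b1.mono_set s4)).trans (a1.mono_set s1).symm
  have k2 : Conn (per n ω) (strip (8 * n)) u1 (sh n (-1) u1) :=
    (((a2.mono_set s1).trans (b2.mono_set s2).symm).trans (b3.mono_set s2)).trans
      (a3.mono_set s3).symm
  have k3 := cylArm_conn_sh n ω (-1) (strip_sh (-1)) k1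
  have k4 : Conn (per n ω) (strip (8 * n)) yy (sh n (-1) yy) := (k1.trans k2).trans k3.symm
  have k5 := cylArm_conn_sh n ω 1 (strip_sh 1) k4
  have e1 : sh n 1 yy = ((n : ℤ) + 1, -(n : ℤ) - 1) := by
    simp only [sh, yy]
    ext <;> simp <;> omega
  have e2 : sh n 1 (sh n (-1) yy) = yy := by
    rw [Pool.Agent.H89.Link.sh_sh, show (1 : ℤ) + -1 = 0 by norm_num,
      Pool.Agent.H89.Link.sh_zero]
  rw [e1, e2] at k5
  exact k5.symm

/-- The deterministic part. -/
theorem cyl_det (hk : 1 ≤ k) (hn : 256 * k ≤ n) (hK : n + 67 * k ≤ K * k)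
    (hS : per n ω ∈ Sep srcD .E .W k) (hN : per n ω ∈ Np n k)
    (hs : per n ω ∈ Seal (grid k K) k (det (base n) .E .W k (CC n k)
      (FX srcD .E .W k (per n ω) ∪ FY srcD .E .W k (per n ω)))) :
    per n ω ∈ Fc2 n (8 * n) := by
  have hN' := Np'_of hN
  refine ⟨wind_x hk hn hS hN', wind_y hk hn hS hN', ?_⟩
  refine (twoData hk hn hS).not_conn hk ?_ (x := xx) (y := yy) ?_ ?_
  · intro a ha v hv
    have hK' : (n : ℤ) + 67 * k ≤ K * k := by exact_mod_cast hK
    have hk' : (1 : ℤ) ≤ k := by exact_mod_cast hk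
    have hn' : 256 * (k : ℤ) ≤ n := by exact_mod_cast hn
    have hb : a ∈ ball 0 (K * k) := by
      rw [mem_ball]
      rw [Set.mem_union, mem_ME, mem_XX] at ha
      simp only [Prod.fst_zero, Prod.snd_zero, zero_sub, zero_add]
      push_cast
      omega
    obtain ⟨g, hg, hag⟩ := exists_grid hk hb
    have h3 : v ∈ ball g (3 * k) := by
      by_contra h
      rw [det_eq] at hs
      exact hs g hg a hag v h hv
    rw [mem_ball] at h3 hag ⊢
    push_cast at h3 ⊢
    omega
  · refine pset_sub _ (Or.inl ?_)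
    rw [FX, mem_clus_single]
    obtain ⟨⟨u, v, -, -, -, h2⟩, -⟩ := hS
    exact Conn.refl h2.mem_left
  · refine pset_sub _ (Or.inl ?_)
    rw [FY, mem_clus_single]
    obtain ⟨-, ⟨u, v, -, -, -, h2⟩, -⟩ := hS
    exact Conn.refl h2.mem_left

end Pool.Agent.H47.EX
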