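import Pool.Agent.H59.EX.Defs
import Pool.Agent.H89.Link.Defs

/-!
# The diagonal source
-/

set_option autoImplicit false

namespace Pool.Agent.H47.EX

open Pool.Agent.H89.Perc Pool.Agent.H59.EX

/-- The two opposite corners `(0, 0)`, `(1, -1)` of a face; no edge is closed. -/
def srcD : Src where
  x := Pool.Agent.H89.Link.xx
  y := Pool.Agent.H89.Link.yy
  E0 := ∅
  hx := by
    simp only [Pool.Agent.H89.Link.xx, ball, rect, Set.mem_ofPred_eq]
    norm_num
  hy := by
    simp only [Pool.Agent.H89.Link.yy, ball, rect, Set.mem_ofPred_eq]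
    norm_num
  hE := by
    intro e he
    simp at he

theorem cut_srcD (ω : Config) : srcD.cut ω = ω := by
  funext e
  simp [Src.cut, closeS, srcD]

end Pool.Agent.H47.EX
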