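import Pool.Agent.H47.EX.Confine
import Pool.Agent.H47.EX.SrcD
import Pool.Agent.H59.EX.Corr
import Pool.Agent.H89.Perc.ArmBoxLower
import Pool.Agent.H89.Link.PerProb
import Pool.Agent.H89.Link.Face

/-!
# Geometry of the corridors on the cylinder

`n ≥ 256 k`.  The corridor of `x` goes from the east mouth of the box around `0` to the right and then
down to the east mouth of the copy of the box at `(n, -n)`; the corridor of `y` is its image under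
`v ↦ -v`.
-/

set_option autoImplicit false

open MeasureTheory ProbabilityTheory unitInterval

namespace Pool.Agent.H47.EX

open Pool.Agent.H89.Perc hiding per
open Pool.Agent.H59.EX
open Pool.Agent.H89.Link (per base per_eq)

/-! ### Periods -/

/-- The periods of the cylinder. -/
def gam (n : ℕ) : AddSubgroup (ℤ × ℤ) := AddSubgroup.zmultiples ((n : ℤ), -(n : ℤ))

theorem mem_gam {n : ℕ} {z : Vert} : z ∈ gam n ↔ ∃ j : ℤ, z = ((n : ℤ) * j, -((n : ℤ) * j)) := by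
  unfold gam
  rw [AddSubgroup.mem_zmultiples_iff]
  constructor
  · rintro ⟨j, rfl⟩
    exact ⟨j, by ext <;> simp [mul_comm]⟩
  · rintro ⟨j, rfl⟩
    exact ⟨j, by ext <;> simp [mul_comm]⟩

/-- Small periods. -/
theorem gam_cases {n : ℕ} {z : Vert} (hz : z ∈ gam n) : z.2 = -z.1 ∧
    (z = 0 ∨ z.1 = n ∨ z.1 = -n ∨ z.1 = 2 * n ∨ z.1 = -(2 * n) ∨ 3 * n ≤ z.1 ∨ z.1 ≤ -(3 * n)) := by
  obtain ⟨j, rfl⟩ := mem_gam.1 hz
  refine ⟨rfl, ?_⟩
  have hn : (0 : ℤ) ≤ n := Int.natCast_nonneg n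
  rcases lt_or_ge j 3 with h3 | h3
  · rcases lt_or_ge (-3) j with h4 | h4
    · have : j = -2 ∨ j = -1 ∨ j = 0 ∨ j = 1 ∨ j = 2 := by omega
      rcases this with h | h | h | h | h <;> subst h
      · right; right; right; right; left
        simp only; ring
      · right; right; left
        simp only; ring
      · left; simp
      · right; left
        simp
      · right; right; right; left
        simp only; ring
    · right; right; right; right; right; right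
      simp only
      nlinarith
  · right; right; right; right; right; left
    simp only
    nlinarith

theorem per_gam (n : ℕ) (ω : Config) : ∀ z ∈ gam n, ∀ e, per n ω (shiftE z e) = per n ω e := by
  intro z hz e
  obtain ⟨j, rfl⟩ := mem_gam.1 hz
  exact Pool.Agent.H89.Link.per_shift n ω e j

theorem base_shift (n : ℕ) {z : Vert} (hz : z ∈ gam n) (e : Edge) :
    base n (shiftE z e) = base n e := by
  obtain ⟨j, rfl⟩ := mem_gam.1 hz
  obtain ⟨a, b, t⟩ := e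
  simp only [base, shiftE, Int.add_mul_emod_self_left, Prod.mk.injEq, and_true, true_and]
  ring

theorem base_eq_iff {n : ℕ} {e e' : Edge} :
    base n e = base n e' ↔ ∃ z ∈ gam n, e' = shiftE z e := by
  constructor
  · intro h
    obtain ⟨a, b, t⟩ := e
    obtain ⟨a', b', t'⟩ := e'
    simp only [base, Prod.mk.injEq] at h
    obtain ⟨h1, h2, h3⟩ := h
    obtain ⟨j, hj⟩ := (Int.ModEq.dvd h1 : (n : ℤ) ∣ a' - a)
    refine ⟨((n : ℤ) * j, -((n : ℤ) * j)), mem_gam.2 ⟨j, rfl⟩, ?_⟩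
    simp only [shiftE, Prod.mk.injEq]
    refine ⟨by omega, by omega, h3.symm⟩
  · rintro ⟨z, hz, rfl⟩
    rw [base_shift n hz]

theorem det_eq (n : ℕ) (d d' : Side) (k : ℕ) (C S : Set Vert) :
    det (base n) d d' k C S = pedge (gam n) (touch (dom d d' k) S ∪ inE C) := by
  ext e
  constructor
  · rintro ⟨e', he', h⟩
    obtain ⟨z, hz, rfl⟩ := base_eq_iff.1 h
    exact ⟨z, hz, he'⟩
  · rintro ⟨z, hz, he⟩
    exact ⟨_, he, (base_shift n hz e).symm⟩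

/-! ### The window -/

/-- A window of one period. -/
def Win (n : ℕ) : Set Vert := {v | -(n : ℤ) ≤ v.1 - v.2 ∧ v.1 - v.2 ≤ n}

theorem base_injOn_win (n : ℕ) (hn : 1 ≤ n) : Set.InjOn (base n) (inE (Win n)) := by
  intro e he e' he' h
  obtain ⟨z, hz, rfl⟩ := base_eq_iff.1 h
  obtain ⟨h2, hc⟩ := gam_cases hz
  have hn' : (1 : ℤ) ≤ n := by exact_mod_cast hn
  rcases hc with h0 | hc
  · rw [h0, shiftE_zero]
  · exfalso
    simp only [inE, Win, Set.mem_ofPred_eq, src_shiftE, tgt_shiftE, Prod.fst_add,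
      Prod.snd_add] at he he'
    obtain ⟨a, b, t⟩ := e
    cases t
    · simp only [src, tgt, Bool.false_eq_true, if_false] at he he'
      omega
    · simp only [src, tgt, if_true] at he he'
      omega

/-- Every edge has a translate in the window. -/
theorem exists_win (n : ℕ) (hn : 1 ≤ n) (e : Edge) : ∃ z ∈ gam n, shiftE z e ∈ inE (Win n) := by
  obtain ⟨a, b, t⟩ := e
  have hn' : (1 : ℤ) ≤ n := by exact_mod_cast hn
  -- the smaller value of `v.1 - v.2`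
  have key : ∀ s : ℤ, ∃ j : ℤ, -(n : ℤ) ≤ s + 2 * (n * j) ∧ s + 2 * (n * j) + 1 ≤ n := by
    intro s
    refine ⟨-((s + n) / (2 * n)), ?_⟩
    have h1 := Int.mul_ediv_self_le (x := s + n) (k := 2 * n) (by omega)
    have h2 := Int.lt_mul_ediv_self_add (x := s + n) (k := 2 * n) (by omega)
    have e1 : 2 * ((n : ℤ) * -((s + n) / (2 * n))) = -(2 * n * ((s + n) / (2 * n))) := by ring
    rw [e1]
    omega
  cases t
  · obtain ⟨j, h1, h2⟩ := key (a - b)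
    refine ⟨((n : ℤ) * j, -((n : ℤ) * j)), mem_gam.2 ⟨j, rfl⟩, ?_⟩
    simp only [inE, Win, Set.mem_ofPred_eq, shiftE, src, tgt, Bool.false_eq_true, if_false]
    generalize (n : ℤ) * j = m at *
    omega
  · obtain ⟨j, h1, h2⟩ := key (a - b - 1)
    refine ⟨((n : ℤ) * j, -((n : ℤ) * j)), mem_gam.2 ⟨j, rfl⟩, ?_⟩
    simp only [inE, Win, Set.mem_ofPred_eq, shiftE, src, tgt, if_true]
    generalize (n : ℤ) * j = m at *
    omega

/-! ### The corridors -/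

/-- horizontal part of the corridor of `x` -/
def RX1 (n k : ℕ) : Set Vert := rect (28 * k) (n + 67 * k) (-(3 * k)) (3 * k)
/-- vertical part of the corridor of `x` -/
def RX2 (n k : ℕ) : Set Vert := rect (n + 61 * k) (n + 67 * k) (-(n + 3 * k)) (3 * k)
/-- horizontal part of the corridor of `y` -/
def RY1 (n k : ℕ) : Set Vert := rect (-(n + 67 * k)) (-(28 * k)) (-(3 * k)) (3 * k)
/-- vertical part of the corridor of `y` -/
def RY2 (n k : ℕ) : Set Vert := rect (-(n + 67 * k)) (-(n + 61 * k)) (-(3 * k)) (n + 3 * k)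

/-- corridor of `x` -/
def XX (n k : ℕ) : Set Vert := RX1 n k ∪ RX2 n k
/-- corridor of `y` -/
def YY (n k : ℕ) : Set Vert := RY1 n k ∪ RY2 n k

/-- The corridors in the window. -/
def CC (n k : ℕ) : Set Vert := pset (gam n) (XX n k ∪ YY n k) ∩ Win n

variable {n k : ℕ}

theorem mem_dom {v : Vert} : v ∈ dom .E .W k ↔
    (-(32 * k : ℤ) ≤ v.1 ∧ v.1 ≤ 32 * k ∧ -(32 * k : ℤ) ≤ v.2 ∧ v.2 ≤ 32 * k) ∨
    ((28 * k : ℤ) ≤ v.1 ∧ v.1 ≤ 36 * k ∧ -(3 * k : ℤ) ≤ v.2 ∧ v.2 ≤ 3 * k) ∨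
    (-(36 * k : ℤ) ≤ v.1 ∧ v.1 ≤ -(28 * k) ∧ -(3 * k : ℤ) ≤ v.2 ∧ v.2 ≤ 3 * k) := by
  simp only [dom, T, Set.mem_union, rect, Set.mem_ofPred_eq]
  rw [mem_ball]
  simp only [Prod.fst_zero, Prod.snd_zero, zero_sub, zero_add]
  push_cast
  rfl

theorem mem_TE {v : Vert} : v ∈ T .E k ↔
    ((28 * k : ℤ) ≤ v.1 ∧ v.1 ≤ 36 * k ∧ -(3 * k : ℤ) ≤ v.2 ∧ v.2 ≤ 3 * k) := Iff.rfl

theorem mem_TW {v : Vert} : v ∈ T .W k ↔
    (-(36 * k : ℤ) ≤ v.1 ∧ v.1 ≤ -(28 * k) ∧ -(3 * k : ℤ) ≤ v.2 ∧ v.2 ≤ 3 * k) := Iff.rfl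

theorem mem_ME {v : Vert} : v ∈ Mouth .E k ↔
    ((32 * k : ℤ) ≤ v.1 ∧ v.1 ≤ 32 * k ∧ -(4 * k : ℤ) ≤ v.2 ∧ v.2 ≤ 4 * k) := Iff.rfl

theorem mem_MW {v : Vert} : v ∈ Mouth .W k ↔
    (-(32 * k : ℤ) ≤ v.1 ∧ v.1 ≤ -(32 * k) ∧ -(4 * k : ℤ) ≤ v.2 ∧ v.2 ≤ 4 * k) := Iff.rfl

theorem mem_XX {v : Vert} : v ∈ XX n k ↔
    ((28 * k : ℤ) ≤ v.1 ∧ v.1 ≤ n + 67 * k ∧ -(3 * k : ℤ) ≤ v.2 ∧ v.2 ≤ 3 * k) ∨
    ((n + 61 * k : ℤ) ≤ v.1 ∧ v.1 ≤ n + 67 * k ∧ -(n + 3 * k : ℤ) ≤ v.2 ∧ v.2 ≤ 3 * k) := Iff.rfl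

theorem mem_YY {v : Vert} : v ∈ YY n k ↔
    (-(n + 67 * k : ℤ) ≤ v.1 ∧ v.1 ≤ -(28 * k) ∧ -(3 * k : ℤ) ≤ v.2 ∧ v.2 ≤ 3 * k) ∨
    (-(n + 67 * k : ℤ) ≤ v.1 ∧ v.1 ≤ -(n + 61 * k) ∧ -(3 * k : ℤ) ≤ v.2 ∧ v.2 ≤ n + 3 * k) := Iff.rfl

/-- The two corridors (with the mouths) are far from each other, on all sheets. -/
theorem far_XY (hk : 1 ≤ k) (hn : 256 * k ≤ n) {a b z : Vert} (ha : a ∈ Mouth .E k ∪ XX n k)
    (hz : z ∈ gam n) (hb : b + z ∈ Mouth .W k ∪ YY n k) : b ∉ ball a (4 * k) := by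
  intro hab
  obtain ⟨h2, hc⟩ := gam_cases hz
  rw [mem_ball] at hab
  push_cast at hab
  rw [Set.mem_union, mem_ME, mem_XX] at ha
  rw [Set.mem_union, mem_MW, mem_YY, Prod.fst_add, Prod.snd_add, h2] at hb
  have hk' : (1 : ℤ) ≤ k := by exact_mod_cast hk
  have hn' : 256 * (k : ℤ) ≤ n := by exact_mod_cast hn
  have hc' : z.1 = 0 ∨ z.1 = n ∨ z.1 = -n ∨ z.1 = 2 * n ∨ z.1 = -(2 * n) ∨ 3 * n ≤ z.1 ∨
      z.1 ≤ -(3 * n) := by
    rcases hc with h | h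
    · left; rw [h]; rfl
    · right; exact h
  clear hc hz
  generalize z.1 = m at *
  obtain ⟨a1, a2⟩ := a
  obtain ⟨b1, b2⟩ := b
  simp only at *
  generalize (k : ℤ) = K at *
  generalize (n : ℤ) = N at *
  rcases ha with ha | ha | ha <;> rcases hb with hb | hb | hb <;> omega

/-- The box meets only one sheet. -/
theorem one_sheet (hk : 1 ≤ k) (hn : 256 * k ≤ n) {a b z : Vert}
    (ha : a ∈ dom .E .W k ∪ (XX n k ∪ YY n k)) (hz : z ∈ gam n) (hb : b + z ∈ dom .E .W k)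
    (hab : b ∈ ball a 1) : z = 0 := by
  obtain ⟨h2, hc⟩ := gam_cases hz
  rw [mem_ball] at hab
  push_cast at hab
  rw [Set.mem_union, Set.mem_union, mem_dom, mem_XX, mem_YY] at ha
  rw [mem_dom, Prod.fst_add, Prod.snd_add, h2] at hb
  have hk' : (1 : ℤ) ≤ k := by exact_mod_cast hk
  have hn' : 256 * (k : ℤ) ≤ n := by exact_mod_cast hn
  rcases hc with h | hc
  · exact h
  · exfalso
    clear hz h2
    generalize z.1 = m at *
    obtain ⟨a1, a2⟩ := a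
    obtain ⟨b1, b2⟩ := b
    simp only at *
    generalize (k : ℤ) = K at *
    generalize (n : ℤ) = N at *
    have hb' : -(36 * K) ≤ b1 + m ∧ b1 + m ≤ 36 * K ∧ -(32 * K) ≤ b2 + -m ∧ b2 + -m ≤ 32 * K := by
      omega
    clear hb
    rcases ha with ha | ha | ha
    · have ha' : -(36 * K) ≤ a1 ∧ a1 ≤ 36 * K := by omega
      clear ha
      omega
    · rcases ha with ha | ha <;> omega
    · rcases ha with ha | ha <;> omega

theorem XX_dom (hk : 1 ≤ k) (hn : 256 * k ≤ n) {a : Vert} (ha : a ∈ XX n k)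
    (hd : a ∈ dom .E .W k) : a ∈ T .E k := by
  rw [mem_XX] at ha
  rw [mem_dom] at hd
  rw [mem_TE]
  have hk' : (1 : ℤ) ≤ k := by exact_mod_cast hk
  have hn' : 256 * (k : ℤ) ≤ n := by exact_mod_cast hn
  omega

theorem YY_dom (hk : 1 ≤ k) (hn : 256 * k ≤ n) {a : Vert} (ha : a ∈ YY n k)
    (hd : a ∈ dom .E .W k) : a ∈ T .W k := by
  rw [mem_YY] at ha
  rw [mem_dom] at hd
  rw [mem_TW]
  have hk' : (1 : ℤ) ≤ k := by exact_mod_cast hk
  have hn' : 256 * (k : ℤ) ≤ n := by exact_mod_cast hn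
  omega

theorem TE_XX (hk : 1 ≤ k) (hn : 256 * k ≤ n) : T .E k ⊆ XX n k := by
  intro a ha
  rw [mem_TE] at ha
  rw [mem_XX]
  have hk' : (1 : ℤ) ≤ k := by exact_mod_cast hk
  have hn' : 256 * (k : ℤ) ≤ n := by exact_mod_cast hn
  omega

theorem TW_YY (hk : 1 ≤ k) (hn : 256 * k ≤ n) : T .W k ⊆ YY n k := by
  intro a ha
  rw [mem_TW] at ha
  rw [mem_YY]
  have hk' : (1 : ℤ) ≤ k := by exact_mod_cast hk
  have hn' : 256 * (k : ℤ) ≤ n := by exact_mod_cast hn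
  omega

theorem dom_win (hk : 1 ≤ k) (hn : 256 * k ≤ n) : dom .E .W k ⊆ Win n := by
  intro a ha
  rw [mem_dom] at ha
  simp only [Win, Set.mem_ofPred_eq]
  have hk' : (1 : ℤ) ≤ k := by exact_mod_cast hk
  have hn' : 256 * (k : ℤ) ≤ n := by exact_mod_cast hn
  omega

theorem CC_sub : CC n k ⊆ pset (gam n) (XX n k) ∪ pset (gam n) (YY n k) := by
  rintro v ⟨⟨z, hz, h | h⟩, -⟩
  · exact Or.inl ⟨z, hz, h⟩
  · exact Or.inr ⟨z, hz, h⟩

theorem T_CC (hk : 1 ≤ k) (hn : 256 * k ≤ n) : T .E k ∪ T .W k ⊆ CC n k := by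
  intro a ha
  refine ⟨pset_sub _ ?_, dom_win hk hn (Or.inr ha)⟩
  rcases ha with ha | ha
  · exact Or.inl (TE_XX hk hn ha)
  · exact Or.inr (TW_YY hk hn ha)

theorem CC_dom (hk : 1 ≤ k) (hn : 256 * k ≤ n) :
    CC n k ∩ dom .E .W k ⊆ T .E k ∪ T .W k := by
  rintro a ⟨⟨⟨z, hz, h⟩, -⟩, hd⟩
  have hz0 : -z = 0 := one_sheet hk hn (a := a + z) (b := a + z) (z := -z) (Or.inr h)
    ((gam n).neg_mem hz) (by rw [add_neg_cancel_right]; exact hd) self_mem_ball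
  rw [neg_eq_zero.1 hz0, add_zero] at h
  rcases h with h | h
  · exact Or.inl (XX_dom hk hn h hd)
  · exact Or.inr (YY_dom hk hn h hd)

theorem CC_finite (hk : 1 ≤ k) (hn : 256 * k ≤ n) : (CC n k).Finite := by
  have hk' : (1 : ℤ) ≤ k := by exact_mod_cast hk
  have hn' : 256 * (k : ℤ) ≤ n := by exact_mod_cast hn
  refine Set.Finite.subset (Set.finite_Icc ((-(2 * n : ℤ), -(2 * n : ℤ)) : ℤ × ℤ)
    ((2 * n : ℤ), (2 * n : ℤ))) ?_
  rintro v ⟨⟨z, hz, h⟩, hw⟩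
  obtain ⟨h2, -⟩ := gam_cases hz
  simp only [Win, Set.mem_ofPred_eq] at hw
  rw [Set.mem_union, mem_XX, mem_YY, Prod.fst_add, Prod.snd_add, h2] at h
  rw [Set.mem_Icc, Prod.le_def, Prod.le_def]
  simp only
  omega

theorem inj_CC (hk : 1 ≤ k) (hn : 256 * k ≤ n) :
    Set.InjOn (base n) (inE (dom .E .W k ∪ CC n k)) := by
  refine (base_injOn_win n (by omega)).mono ?_
  rintro e ⟨h1, h2⟩
  have key : dom .E .W k ∪ CC n k ⊆ Win n := by
    rintro v (hv | hv)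
    · exact dom_win hk hn hv
    · exact hv.2
  exact ⟨key h1, key h2⟩

/-- Every edge of the corridors is a translate of an edge of `CC`. -/
theorem exists_CC (hn : 1 ≤ n) {e : Edge} (he : e ∈ inE (pset (gam n) (XX n k ∪ YY n k))) :
    ∃ e' ∈ inE (CC n k), base n e' = base n e := by
  obtain ⟨z, hz, h⟩ := exists_win n hn e
  refine ⟨shiftE z e, ⟨⟨?_, h.1⟩, ⟨?_, h.2⟩⟩, base_shift n hz e⟩
  · rw [src_shiftE, pset_add hz]
    exact he.1
  · rw [tgt_shiftE, pset_add hz]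
    exact he.2

end Pool.Agent.H47.EX
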