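import Pool.Agent.H47.EX.CylDet

/-!
# The separated event of the diagonal source is not empty
-/

set_option autoImplicit false

open MeasureTheory ProbabilityTheory unitInterval

namespace Pool.Agent.H47.EX

open Pool.Agent.H89.Perc hiding per
open Pool.Agent.H59.EX
open Pool.Agent.H89.Link (xx yy)

variable {k : ℕ}

private def AX (k : ℕ) : Set Vert := {v | v.2 = 0 ∧ -(36 * k : ℤ) ≤ v.1 ∧ v.1 ≤ 0} ∪ T .W k

private def AY (k : ℕ) : Set Vert := {v | v.2 = -1 ∧ 1 ≤ v.1 ∧ v.1 ≤ (36 * k : ℤ)} ∪ T .E k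

private noncomputable def et (k : ℕ) : Config := fun e => by
  classical exact decide (e ∈ inE (AX k) ∨ e ∈ inE (AY k))

private theorem et_true {e : Edge} : et k e = true ↔ e ∈ inE (AX k) ∨ e ∈ inE (AY k) := by
  simp [et]

private theorem mem_dom' {v : Vert} : v ∈ dom .W .E k ↔
    (-(32 * k : ℤ) ≤ v.1 ∧ v.1 ≤ 32 * k ∧ -(32 * k : ℤ) ≤ v.2 ∧ v.2 ≤ 32 * k) ∨
    (-(36 * k : ℤ) ≤ v.1 ∧ v.1 ≤ -(28 * k) ∧ -(3 * k : ℤ) ≤ v.2 ∧ v.2 ≤ 3 * k) ∨
    ((28 * k : ℤ) ≤ v.1 ∧ v.1 ≤ 36 * k ∧ -(3 * k : ℤ) ≤ v.2 ∧ v.2 ≤ 3 * k) := by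
  simp only [dom, T, Set.mem_union, rect, Set.mem_ofPred_eq]
  rw [mem_ball]
  simp only [Prod.fst_zero, Prod.snd_zero, zero_sub, zero_add]
  push_cast
  rfl

private theorem mem_AX {v : Vert} : v ∈ AX k ↔
    (v.2 = 0 ∧ -(36 * k : ℤ) ≤ v.1 ∧ v.1 ≤ 0) ∨
    (-(36 * k : ℤ) ≤ v.1 ∧ v.1 ≤ -(28 * k) ∧ -(3 * k : ℤ) ≤ v.2 ∧ v.2 ≤ 3 * k) := Iff.rfl

private theorem mem_AY {v : Vert} : v ∈ AY k ↔
    (v.2 = -1 ∧ 1 ≤ v.1 ∧ v.1 ≤ (36 * k : ℤ)) ∨
    ((28 * k : ℤ) ≤ v.1 ∧ v.1 ≤ 36 * k ∧ -(3 * k : ℤ) ≤ v.2 ∧ v.2 ≤ 3 * k) := Iff.rfl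

private theorem A_disj (hk : 1 ≤ k) {v : Vert} (h1 : v ∈ AX k) (h2 : v ∈ AY k) : False := by
  rw [mem_AX] at h1
  rw [mem_AY] at h2
  have hk' : (1 : ℤ) ≤ k := by exact_mod_cast hk
  omega

private theorem fill_et (hk : 1 ≤ k) {e : Edge}
    (h : fillV (T .W k ∪ T .E k) (srcD.cut (et k)) e = true) :
    e ∈ inE (AX k) ∨ e ∈ inE (AY k) := by
  rw [cut_srcD] at h
  rcases fillV_true.1 h with h | ⟨h1, h2⟩
  · exact et_true.1 h
  · have hadj : tgt e ∈ ball (src e) 1 := ball_one_of_joins (joins_src_tgt e)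
    rw [mem_ball] at hadj
    have hk' : (1 : ℤ) ≤ k := by exact_mod_cast hk
    rcases h1 with h1 | h1 <;> rcases h2 with h2 | h2
    · exact Or.inl ⟨Or.inr h1, Or.inr h2⟩
    · exfalso
      rw [mem_TW] at h1
      rw [mem_TE] at h2
      omega
    · exfalso
      rw [mem_TE] at h1
      rw [mem_TW] at h2
      omega
    · exact Or.inr ⟨Or.inr h1, Or.inr h2⟩

private theorem in_AX (hk : 1 ≤ k) {v : Vert}
    (h : Conn (fillV (T .W k ∪ T .E k) (srcD.cut (et k))) (dom .W .E k) xx v) : v ∈ AX k := by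
  refine h.induction_right (P := fun v => v ∈ AX k) (Or.inl ⟨rfl, ?_, le_rfl⟩) ?_
  · simp only [xx]
    omega
  · rintro a b _ ⟨-, -, e, hj, ho⟩ ih
    rcases fill_et hk ho with h1 | h1
    · exact (joins_inE hj h1).2
    · exact (A_disj hk ih (joins_inE hj h1).1).elim

private theorem in_AY (hk : 1 ≤ k) {v : Vert}
    (h : Conn (fillV (T .W k ∪ T .E k) (srcD.cut (et k))) (dom .W .E k) yy v) : v ∈ AY k := by
  have hk' : (1 : ℤ) ≤ k := by exact_mod_cast hk
  refine h.induction_right (P := fun v => v ∈ AY k) (Or.inl ⟨rfl, le_rfl, ?_⟩) ?_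
  · simp only [yy]
    omega
  · rintro a b _ ⟨-, -, e, hj, ho⟩ ih
    rcases fill_et hk ho with h1 | h1
    · exact (A_disj hk (joins_inE hj h1).1 ih).elim
    · exact (joins_inE hj h1).2

private theorem conn_et {S S' : Set Vert} (hS : S ⊆ AX k ∨ S ⊆ AY k) (hS' : S ⊆ S') {u v : Vert}
    (h : Conn allOpen S u v) : Conn (srcD.cut (et k)) S' u v := by
  rw [cut_srcD]
  refine (h.congr (ω' := et k) fun e h1 h2 => ?_).mono_set hS'
  symm
  refine et_true.2 ?_
  rcases hS with hS | hS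
  · exact Or.inl ⟨hS h1, hS h2⟩
  · exact Or.inr ⟨hS h1, hS h2⟩

/-- The separated event of the diagonal source is not empty. -/
theorem sep_srcD_nonempty {k : ℕ} (hk : 1 ≤ k) : (Sep srcD .W .E k).Nonempty := by
  have hk' : (1 : ℤ) ≤ k := by exact_mod_cast hk
  have hAX : AX k ⊆ dom .W .E k := by
    intro v hv
    rw [mem_AX] at hv
    rw [mem_dom']
    omega
  have hAY : AY k ⊆ dom .W .E k := by
    intro v hv
    rw [mem_AY] at hv
    rw [mem_dom']
    omega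
  refine ⟨et k, ?_, ?_, ?_, ?_, ?_⟩
  · refine ⟨(-(30 * k : ℤ), -(3 * k : ℤ)), (-(30 * k : ℤ), (3 * k : ℤ)), rfl, rfl, ?_, ?_⟩
    · refine conn_et (S := T .W k) (Or.inl fun _ h => Or.inr h) subset_rfl
        (ArmBoxLower.line_v' _ _ _ _ (by omega) fun t h1 h2 => ?_)
      rw [mem_TW]
      simp only
      omega
    · refine conn_et (S := AX k) (Or.inl subset_rfl) hAX ?_
      have h1 : Conn allOpen (AX k) (-(30 * k : ℤ), 0) (0, 0) :=
        ArmBoxLower.line_h' _ _ _ _ (by omega) fun t h1 h2 => Or.inl (by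
          simp only [Set.mem_ofPred_eq, true_and]
          omega)
      have h2 : Conn allOpen (AX k) (-(30 * k : ℤ), -(3 * k : ℤ)) (-(30 * k : ℤ), 0) :=
        ArmBoxLower.line_v' _ _ _ _ (by omega) fun t h1 h2 => Or.inr (by
          rw [mem_TW]
          simp only
          omega)
      exact (h2.trans h1).symm
  · refine ⟨((30 * k : ℤ), -(3 * k : ℤ)), ((30 * k : ℤ), (3 * k : ℤ)), rfl, rfl, ?_, ?_⟩
    · refine conn_et (S := T .E k) (Or.inr fun _ h => Or.inr h) subset_rfl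
        (ArmBoxLower.line_v' _ _ _ _ (by omega) fun t h1 h2 => ?_)
      rw [mem_TE]
      simp only
      omega
    · refine conn_et (S := AY k) (Or.inr subset_rfl) hAY ?_
      have h1 : Conn allOpen (AY k) (1, -1) ((30 * k : ℤ), -1) :=
        ArmBoxLower.line_h' _ _ _ _ (by omega) fun t h1 h2 => Or.inl (by
          simp only [Set.mem_ofPred_eq, true_and]
          omega)
      have h2 : Conn allOpen (AY k) ((30 * k : ℤ), -(3 * k : ℤ)) ((30 * k : ℤ), -1) :=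
        ArmBoxLower.line_v' _ _ _ _ (by omega) fun t h1 h2 => Or.inr (by
          rw [mem_TE]
          simp only
          omega)
      exact h1.trans h2.symm
  · intro h
    have h1 := in_AX hk h
    rw [mem_AX] at h1
    simp only [srcD, yy] at h1
    omega
  · intro v hv h
    have h1 := in_AX hk h
    obtain ⟨h2, h3⟩ := hv
    rw [mem_AX] at h1
    rw [mem_ball] at h2
    simp only [Prod.fst_zero, Prod.snd_zero, zero_sub, zero_add] at h2 h3
    rw [mem_MW]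
    push_cast at h2 h3
    omega
  · intro v hv h
    have h1 := in_AY hk h
    obtain ⟨h2, h3⟩ := hv
    rw [mem_AY] at h1
    rw [mem_ball] at h2
    simp only [Prod.fst_zero, Prod.snd_zero, zero_sub, zero_add] at h2 h3
    rw [mem_ME]
    push_cast at h2 h3
    omega

end Pool.Agent.H47.EX
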