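import Pool.Agent.H47.EX.CylProb
import Pool.Agent.H47.EX.SepD
import Pool.Agent.H89.EX.FourExp

/-!
# Four arms of the plane can be continued to the four-leg event of the cylinder
-/

set_option autoImplicit false

open MeasureTheory ProbabilityTheory unitInterval

namespace Pool.Agent.H47.EX

open Pool.Agent.H89.Perc hiding per
open Pool.Agent.H59.EX
open Pool.Agent.H61.NC (a4 RSWreg)
open Pool.Agent.H89.Link (per Fc2 FourD a4_le_fourD)
open Pool.Agent.H89.EX (UpA4)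

theorem four_srcD (r : ℕ) : Four srcD r = FourD r := by
  ext ω
  simp only [Four, FourD, Set.mem_ofPred_eq, cut_srcD]
  rfl

/-- The upper bound for large radii gives `UpA4`. -/
theorem upA4_of_large {C : ℝ} {r₁ : ℕ} (hC : 0 < C) (h : ∀ r : ℕ, r₁ ≤ r → ∃ n H : ℕ, r ≤ n ∧
    2 ≤ n ∧ a4 half r ≤ C * Pr half {ω | per n ω ∈ Fc2 n H}) : UpA4 := by
  obtain ⟨c, hc, hlow⟩ := Pool.Agent.H89.EX.a4_lower
  obtain ⟨n₁, H₁, hn₁, hn₂, h₁⟩ := h (r₁ + 1) (by omega)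
  have hpos : 0 < a4 half (r₁ + 1) :=
    lt_of_lt_of_le (by positivity) (hlow (r₁ + 1) (by omega))
  refine ⟨C + C / a4 half (r₁ + 1), by positivity, fun r hr => ?_⟩
  have hnn : 0 ≤ C / a4 half (r₁ + 1) := by positivity
  rcases le_or_gt r₁ r with h2 | h2
  · obtain ⟨n, H, h3, h4, h5⟩ := h r h2
    refine ⟨n, H, h3, h4, Or.inr (h5.trans ?_)⟩
    have : (0 : ℝ) ≤ Pr half {ω | per n ω ∈ Fc2 n H} := Pr_nonneg
    nlinarith
  · refine ⟨n₁, H₁, by omega, hn₂, Or.inr ?_⟩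
    have h6 : (0 : ℝ) ≤ Pr half {ω | per n₁ ω ∈ Fc2 n₁ H₁} := Pr_nonneg
    have h7 : a4 half r ≤ 1 := Pr_le_one
    have h8 : 1 ≤ C / a4 half (r₁ + 1) * Pr half {ω | per n₁ ω ∈ Fc2 n₁ H₁} := by
      rw [div_mul_eq_mul_div, le_div_iff₀ hpos, one_mul]
      exact h₁
    nlinarith

/-- `UpA4` from the separation of the arms. -/
theorem upA4_of (h : ∃ (C : ℝ) (r₀ : ℕ), 0 < C ∧ ∀ r : ℕ, r₀ ≤ r → ∃ k : ℕ, 64 * r ≤ k ∧
    k ≤ 128 * r ∧ Pr half (Four srcD r) ≤ C * Pr half (Sep srcD .E .W k)) : UpA4 := by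
  obtain ⟨C, r₀, hC, h⟩ := h
  obtain ⟨c, hc, hcyl⟩ := cyl_ext 256 le_rfl
  refine upA4_of_large (C := 100 * (C / c)) (r₁ := r₀ + 2) (by positivity) fun r hr => ?_
  obtain ⟨k, h1, h2, h3⟩ := h (r - 1) (by omega)
  refine ⟨256 * k, 8 * (256 * k), by omega, by omega, ?_⟩
  have h4 := a4_le_fourD half (by rw [show ((half : I) : ℝ) = 1 / 2 from rfl]; norm_num)
    (by rw [show ((half : I) : ℝ) = 1 / 2 from rfl]; norm_num) (k := r) (by omega)
  rw [← four_srcD] at h4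
  have h5 := hcyl k (by omega)
  have h6 : Pr half (Sep srcD .E .W k) ≤
      c⁻¹ * Pr half {ω | per (256 * k) ω ∈ Fc2 (256 * k) (8 * (256 * k))} := by
    rw [inv_mul_eq_div, le_div_iff₀ hc]
    linarith
  calc a4 half r ≤ 100 * Pr half (Four srcD (r - 1)) := h4
    _ ≤ 100 * (C * Pr half (Sep srcD .E .W k)) := by gcongr
    _ ≤ 100 * (C * (c⁻¹ * Pr half {ω | per (256 * k) ω ∈ Fc2 (256 * k) (8 * (256 * k))})) := by
        gcongr
    _ = 100 * (C / c) * Pr half {ω | per (256 * k) ω ∈ Fc2 (256 * k) (8 * (256 * k))} := by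
        rw [div_eq_mul_inv]; ring

end Pool.Agent.H47.EX
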