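import Pool.Agent.H47.EX.CylDet
import Pool.Agent.H59.EX.SealProb
import Pool.Agent.H29.Sep.Rect

/-!
# From the separated event to two winding clusters: probability
-/

set_option autoImplicit false

open MeasureTheory ProbabilityTheory unitInterval

namespace Pool.Agent.H47.EX

open Pool.Agent.H89.Perc hiding per
open Pool.Agent.H59.EX
open Pool.Agent.H61.NC (RSWreg)
open Pool.Agent.H89.Link (per base per_eq Fc2 cylArm_pr_h cylArm_pr_v cylArm_step base_injOn_rect)

/-- The regularity condition at the critical point. -/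
theorem rswreg_half : ∃ c : ℝ, 0 < c ∧ ∀ n : ℕ, RSWreg c n half := by
  obtain ⟨c, hc, h⟩ := rsw
  refine ⟨c, hc, fun n m hm _ => ⟨h m hm, ?_⟩⟩
  rw [rsw_symm_half]
  exact h m hm

theorem Np_lower (L : ℕ) : ∃ c : ℝ, 0 < c ∧ ∀ k : ℕ, 1 ≤ k → 256 ≤ L →
    c ≤ Pr half {ω | per (L * k) ω ∈ Np (L * k) k} := by
  obtain ⟨c₀, hc₀, hreg⟩ := rswreg_half
  obtain ⟨c, hc, h⟩ := Pool.Agent.H29.Sep.rect_lower c₀ hc₀ (L + 100)
  refine ⟨c * (c * (c * c)), by positivity, fun k hk hL => ?_⟩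
  have hk' : (1 : ℤ) ≤ k := by exact_mod_cast hk
  have hL' : (256 : ℤ) ≤ L := by exact_mod_cast hL
  obtain ⟨n, hn⟩ : ∃ n : ℕ, n = L * k := ⟨_, rfl⟩
  have hnz : (n : ℤ) = L * k := by rw [hn]; push_cast; ring
  have hn256 : 256 * (k : ℤ) ≤ n := by rw [hnz]; nlinarith
  rw [← hn]
  have hR := hreg (6 * k)
  have e6 : ((6 * k : ℕ) : ℤ) = 6 * k := by push_cast; ring
  have hone : 1 ≤ 6 * k := by omega
  have hLk : (0 : ℤ) ≤ (L : ℤ) * k := by positivity
  have r1 := (h (6 * k) half hone hR (28 * k) (n + 67 * k) (-(3 * k)) (3 * k) (by omega)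
    (by omega) (by push_cast; nlinarith) (by push_cast; nlinarith)).1
  have r2 := (h (6 * k) half hone hR (-(n + 3 * k)) (3 * k) (n + 61 * k) (n + 67 * k) (by omega)
    (by omega) (by push_cast; nlinarith) (by push_cast; nlinarith)).2
  have r3 := (h (6 * k) half hone hR (-(n + 67 * k)) (-(28 * k)) (-(3 * k)) (3 * k) (by omega)
    (by omega) (by push_cast; nlinarith) (by push_cast; nlinarith)).1
  have r4 := (h (6 * k) half hone hR (-(3 * k)) (n + 3 * k) (-(n + 67 * k)) (-(n + 61 * k))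
    (by omega) (by omega) (by push_cast; nlinarith) (by push_cast; nlinarith)).2
  rw [← cylArm_pr_h (n := n) (by right; omega)] at r1 r3
  rw [← cylArm_pr_v (n := n) (by left; omega)] at r2 r4
  have q3 := cylArm_step n (localOn_hcross _ _ _ _) (localOn_vcross _ _ _ _)
    (incr_hcross _ _ _ _) (incr_vcross _ _ _ _) hc.le r3 r4
  have q2 := cylArm_step n (localOn_vcross _ _ _ _)
    ((localOn_hcross _ _ _ _).inter' (localOn_vcross _ _ _ _))
    (incr_vcross _ _ _ _) ((incr_hcross _ _ _ _).inter (incr_vcross _ _ _ _))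
    (by positivity) r2 q3
  have q1 := cylArm_step n (localOn_hcross _ _ _ _)
    ((localOn_vcross _ _ _ _).inter' ((localOn_hcross _ _ _ _).inter' (localOn_vcross _ _ _ _)))
    (incr_hcross _ _ _ _)
    ((incr_vcross _ _ _ _).inter ((incr_hcross _ _ _ _).inter (incr_vcross _ _ _ _)))
    (by positivity) r1 q2
  refine q1.trans (Pr_mono ?_)
  intro ω hω
  exact Np_of (by omega) hω

theorem injOn_ball {n k : ℕ} (hk : 1 ≤ k) (hn : 256 * k ≤ n) (g : Vert) :
    Set.InjOn (base n) (inE (ball g (3 * k))) := by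
  have hk' : (1 : ℤ) ≤ k := by exact_mod_cast hk
  have hn' : 256 * (k : ℤ) ≤ n := by exact_mod_cast hn
  refine (base_injOn_rect (n := n) (a := g.1 - 3 * k) (b := g.1 + 3 * k) (c := g.2 - 3 * k)
    (d := g.2 + 3 * k) (by omega)).mono ?_
  rintro ⟨a, b, t⟩ ⟨h1, -⟩
  rw [mem_ball] at h1
  simp only [src] at h1
  push_cast at h1
  simp only [Set.mem_ofPred_eq]
  omega

/-- **From the separated event to two winding clusters on the cylinder.** -/
theorem cyl_ext (L : ℕ) (hL : 256 ≤ L) : ∃ c : ℝ, 0 < c ∧ ∀ k : ℕ, 1 ≤ k →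
    c * Pr half (Sep srcD .E .W k) ≤
      Pr half {ω | per (L * k) ω ∈ Fc2 (L * k) (8 * (L * k))} := by
  obtain ⟨c₁, hc₁, hN⟩ := Np_lower L
  obtain ⟨c₀, hc₀, hreg⟩ := rswreg_half
  obtain ⟨c₂, hc₂, hSe⟩ := seal_lower_pb c₀ hc₀ 1 ((2 * (L + 67) + 1) ^ 2)
  refine ⟨c₁ * c₂, by positivity, fun k hk => ?_⟩
  obtain ⟨n, hn⟩ : ∃ n : ℕ, n = L * k := ⟨_, rfl⟩
  have hn256 : 256 * k ≤ n := by rw [hn]; exact Nat.mul_le_mul_right k hL
  rw [← hn]
  refine (corridor_prob (q := half) (π := base n) (s := srcD) (d := .E) (d' := .W) (k := k) hk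
    (C := CC n k) (Np := Np n k) (H := fun S => Seal (grid k (L + 67)) k
      (det (base n) .E .W k (CC n k) S)) (c₁ := c₁) (c₂ := c₂) hc₁.le hc₂.le
    (inj_CC hk hn256) (T_CC hk hn256) (CC_dom hk hn256) (CC_finite hk hn256) (locS_Np n k)
    (incr_Np n k) ?_ (fun S => locS_seal _ _ _) ?_ ?_).trans (Pr_mono ?_)
  · rw [hn]
    exact hN k hk hL
  · obtain ⟨Λ, hΛ⟩ := localOn_seal (grid k (L + 67)) k
    exact ⟨Λ, fun S => hΛ _⟩
  · intro S
    exact hSe k k half _ _ (base n) hk (hreg k) hk (by omega) (card_grid k (L + 67))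
      (fun g _ => injOn_ball hk hn256 g)
  · rintro ω ⟨h1, h2, h3⟩
    exact cyl_det hk hn256 (K := L + 67) (by rw [hn, add_mul]) h1 h2 h3

end Pool.Agent.H47.EX
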