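import Pool.Agent.H47.EX.CylMain
import Pool.Agent.H59.EX.Iter
import Pool.Agent.H26.HP.Bad

/-!
# The upper bound `UpA4` on the four-arm probability of the plane by that of the cylinder
-/

set_option autoImplicit false

open MeasureTheory ProbabilityTheory unitInterval

namespace Pool.Agent.H47.EX

open Pool.Agent.H89.Perc hiding per
open Pool.Agent.H59.EX
open Pool.Agent.H29.Sep (BadIn)
open Pool.Agent.H89.EX (UpA4)

theorem upA4_of_bad (hB : BadIn) : UpA4 := by
  obtain ⟨c, hc, hreg⟩ := rswreg_half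
  obtain ⟨C, r₀, hC, h⟩ := four_le_sep hB (s := srcD) (fun k hk => sep_srcD_nonempty hk) c hc
  refine upA4_of ⟨C, r₀, hC, fun r hr => ?_⟩
  exact h r r half .E .W (by decide) hr le_rfl (hreg r)

theorem upA4 : UpA4 := upA4_of_bad Pool.Agent.H26.HP.badIn

end Pool.Agent.H47.EX
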